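import Mathlib
import Pool.Agent.H32.LowRam

set_option autoImplicit false

namespace Pool.Agent.Results.MP_a5fab4_co.Counter

/-- Independent domination number: least size of a maximal independent set. -/
noncomputable def indDom {n : ℕ} (G : SimpleGraph (Fin n)) : ℕ :=
  sInf {k | ∃ S : Finset (Fin n), Maximal G.IsIndepSet (S : Set (Fin n)) ∧ S.card = k}

/-- Least size of a maximal clique. -/
noncomputable def minMaxClique {n : ℕ} (G : SimpleGraph (Fin n)) : ℕ :=
  sInf {k | ∃ S : Finset (Fin n), Maximal G.IsClique (S : Set (Fin n)) ∧ S.card = k}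

/-- The lower Ramsey number. -/
noncomputable def s (l m : ℕ) : ℕ :=
  sSup {n | ∀ G : SimpleGraph (Fin n), indDom G ≤ l ∨ minMaxClique G ≤ m}

theorem result :
    (∀ l m p q : ℕ, 1 ≤ p → 1 ≤ q → l * m ≤ p * q →
      (∀ n, l + m + p + q ≤ n → ∃ G : SimpleGraph (Fin n), l < indDom G ∧ m < minMaxClique G) ∧
        s l m ≤ l + m + p + q - 1) ∧
    ¬ ∀ l m : ℕ, 0 < l → 0 < m → m / 2 ≤ l → l ≤ m → s l m = 2 * (l + m) - 1 := by
  open Pool.Agent.H32.LowRam in
  have ex : ∀ (n : ℕ) (P : Set (Fin n) → Prop), P ∅ →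
      {k | ∃ S : Finset (Fin n), Maximal P (S : Set (Fin n)) ∧ S.card = k}.Nonempty := by
    intro n P h0
    obtain ⟨T, -, hT⟩ := Finite.exists_le_maximal (p := P) h0
    exact ⟨_, T.toFinite.toFinset, by simpa using hT, rfl⟩
  have main : ∀ l m p q : ℕ, 1 ≤ p → 1 ≤ q → l * m ≤ p * q →
      (∀ n, l + m + p + q ≤ n → ∃ G : SimpleGraph (Fin n), l < indDom G ∧ m < minMaxClique G) ∧
        s l m ≤ l + m + p + q - 1 := by
    intro l m p q hp hq h
    have h1 : ∀ n, l + m + p + q ≤ n →
        ∃ G : SimpleGraph (Fin n), l < indDom G ∧ m < minMaxClique G := by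
      intro n hn
      refine ⟨G n (l + q) (m + p) m, ?_, ?_⟩
      · obtain ⟨S, hS, e⟩ := Nat.sInf_mem (ex n (G n (l + q) (m + p) m).IsIndepSet (by simp))
        rw [indDom, ← e]
        exact indep n l m p q hp hq h hn S hS
      · obtain ⟨S, hS, e⟩ := Nat.sInf_mem (ex n (G n (l + q) (m + p) m).IsClique (by simp))
        rw [minMaxClique, ← e]
        exact clique n l m p q hp hn S hS
    refine ⟨h1, csSup_le' fun n hn => ?_⟩
    by_contra hlt
    obtain ⟨G, h2, h3⟩ := h1 n (by omega)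
    have := hn G
    omega
  refine ⟨main, fun h => ?_⟩
  have h1 := (main 4 9 6 6 (by norm_num) (by norm_num) (by norm_num)).2
  have h2 := h 4 9 (by norm_num) (by norm_num) (by norm_num) (by norm_num)
  omega

end Pool.Agent.Results.MP_a5fab4_co.Counter
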